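import Mathlib

/-!
# Generic lex initial ideals need not be lexsegment

Let `k` be an infinite field of any characteristic, `n ≥ 4`, `s ≥ 2`, and let `d` be a degree
sequence of length `s` with two entries equal to `2` and all others at least `5`. Then the lex
initial ideal of the ideal generated by `s` general forms of degrees `d` is not lexsegment.

In degree four the ideal `I` of the forms is that of the two quadrics, so `dim I_4 ≤ n (n + 1)`. The
resultant of the two quadrics with respect to the first variable is an element of `I_4` in the other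
variables, and its initial monomial is `x_2 ^ 4`. A lexsegment ideal containing `x_2 ^ 4` contains
all monomials of degree four which are divisible by `x_1`, and together these are
`binom (n + 2) 3 + 1 > n (n + 1)` monomials.
-/

set_option autoImplicit false

namespace Pool.Agent.Results.MP_48c274_ag.NotLexsegment

open MvPolynomial

section Defs

variable {k : Type*} [Field k] {n s : ℕ}

/-- the exponent vectors of the monomials of degree `e` in `n` variables -/
def monomials (n e : ℕ) : Finset (Fin n →₀ ℕ) := Finset.univ.finsuppAntidiag e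

/-- the coordinates of the affine space of `s`-tuples of forms of degrees `d 0, …, d (s - 1)` in
`n` variables: one coordinate for every form and every monomial of its degree -/
abbrev Coord (n : ℕ) (d : Fin s → ℕ) : Type := Σ i : Fin s, monomials n (d i)

/-- the form of degree `d i` with the coefficients given by the point `a` of the affine space -/
noncomputable def form {d : Fin s → ℕ} (a : Coord n d → k) (i : Fin s) :
    MvPolynomial (Fin n) k :=
  ∑ u : monomials n (d i), monomial (u : Fin n →₀ ℕ) (a ⟨i, u⟩)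

/-- the ideal `I_a` generated by the forms given by the point `a` -/
noncomputable def idealOf {d : Fin s → ℕ} (a : Coord n d → k) : Ideal (MvPolynomial (Fin n) k) :=
  Ideal.span (Set.range (form a))

/-- `u ≻ v` in the lexicographic order on exponent vectors (`x_0 ≻ x_1 ≻ …`) -/
def LexGT (u v : Fin n →₀ ℕ) : Prop := ∃ j, (∀ i < j, u i = v i) ∧ v j < u j

/-- `u` is the exponent vector of the lex initial monomial of the polynomial `f` -/
def IsInitial (f : MvPolynomial (Fin n) k) (u : Fin n →₀ ℕ) : Prop :=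
  u ∈ f.support ∧ ∀ v ∈ f.support, v ≠ u → LexGT u v

/-- the lex initial ideal of `J`: the ideal generated by the initial monomials of its elements -/
noncomputable def initialIdeal (J : Ideal (MvPolynomial (Fin n) k)) :
    Ideal (MvPolynomial (Fin n) k) :=
  Ideal.span {m | ∃ f ∈ J, ∃ u, IsInitial f u ∧ m = monomial u 1}

/-- the monomial ideal `L` is a lexsegment ideal: for all monomials `u ∈ L` and `v ≻ u` of the same
degree also `v ∈ L` -/
def IsLexsegment (L : Ideal (MvPolynomial (Fin n) k)) : Prop :=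
  ∀ u v : Fin n →₀ ℕ, u.degree = v.degree → monomial u (1 : k) ∈ L → LexGT v u →
    monomial v (1 : k) ∈ L

/-- Zariski open subsets of the affine space with coordinates indexed by `σ` -/
def IsZariskiOpen {σ : Type*} (V : Set (σ → k)) : Prop :=
  ∃ P : Set (MvPolynomial σ k), V = {a | ∃ p ∈ P, eval a p ≠ 0}

/-- `G` is the generic lex initial ideal for `s` forms of degrees `d 0, …, d (s - 1)` in `n`
variables: the common lex initial ideal of the `I_a` for `a` in a nonempty Zariski open set -/
def IsGenericInitialIdeal (d : Fin s → ℕ) (G : Ideal (MvPolynomial (Fin n) k)) : Prop :=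
  ∃ V : Set (Coord n d → k), IsZariskiOpen V ∧ V.Nonempty ∧ ∀ a ∈ V, initialIdeal (idealOf a) = G

end Defs

section Proof

variable {k : Type*} [Field k]

lemma mem_monomials {n e : ℕ} {u : Fin n →₀ ℕ} : u ∈ monomials n e ↔ ∑ i, u i = e := by
  simp [monomials]

lemma degree_eq {n : ℕ} (u : Fin n →₀ ℕ) : u.degree = ∑ i, u i := by
  rw [Finsupp.degree_eq_sum]

lemma mem_monomials' {n e : ℕ} {u : Fin n →₀ ℕ} : u ∈ monomials n e ↔ u.degree = e := by
  rw [mem_monomials, degree_eq]

lemma form_homogeneous {n s : ℕ} {d : Fin s → ℕ} (a : Coord n d → k) (i : Fin s) :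
    (form a i).IsHomogeneous (d i) := by
  unfold form
  refine IsHomogeneous.sum _ _ _ fun u _ => ?_
  exact isHomogeneous_monomial _ (mem_monomials'.1 u.2)

/-- the part of degree four of an ideal generated by forms -/
lemma component_mem {n s : ℕ} {d : Fin s → ℕ} (a : Coord n d → k) (i₀ i₁ : Fin s)
    (h0 : d i₀ = 2) (h1 : d i₁ = 2) (hd : ∀ i, i ≠ i₀ → i ≠ i₁ → 5 ≤ d i)
    (F : MvPolynomial (Fin n) k) (hF : F ∈ idealOf a) :
    homogeneousComponent 4 F ∈ Submodule.span k
      ((fun m : Fin n →₀ ℕ => monomial m (1 : k) * form a i₀) '' (monomials n 2 : Set (Fin n →₀ ℕ)) ∪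
       (fun m : Fin n →₀ ℕ => monomial m (1 : k) * form a i₁) ''
        (monomials n 2 : Set (Fin n →₀ ℕ))) := by
  set W := Submodule.span k
      ((fun m : Fin n →₀ ℕ => monomial m (1 : k) * form a i₀) '' (monomials n 2 : Set (Fin n →₀ ℕ)) ∪
       (fun m : Fin n →₀ ℕ => monomial m (1 : k) * form a i₁) ''
        (monomials n 2 : Set (Fin n →₀ ℕ))) with hW
  have key : ∀ (i : Fin s) (c : MvPolynomial (Fin n) k),
      homogeneousComponent 4 (c * form a i) ∈ W := by
    intro i c
    induction c using MvPolynomial.induction_on' with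
    | monomial u r =>
      have hh : (monomial u r * form a i).IsHomogeneous (u.degree + d i) :=
        (isHomogeneous_monomial r rfl).mul (form_homogeneous a i)
      rw [homogeneousComponent_of_mem hh]
      split_ifs with h
      · have hu : u ∈ monomials n 2 ∧ (i = i₀ ∨ i = i₁) := by
          by_cases hi0 : i = i₀
          · subst hi0
            exact ⟨mem_monomials'.2 (by omega), Or.inl rfl⟩
          · by_cases hi1 : i = i₁
            · subst hi1
              exact ⟨mem_monomials'.2 (by omega), Or.inr rfl⟩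
            · have := hd i hi0 hi1
              omega
        have e1 : monomial u r * form a i = r • (monomial u (1 : k) * form a i) := by
          rw [← smul_mul_assoc, smul_monomial, smul_eq_mul, mul_one]
        rw [e1]
        refine W.smul_mem _ (Submodule.subset_span ?_)
        rcases hu with ⟨hu, rfl | rfl⟩
        · exact Or.inl ⟨u, hu, rfl⟩
        · exact Or.inr ⟨u, hu, rfl⟩
      · exact W.zero_mem
    | add p q hp hq =>
      rw [add_mul, map_add]
      exact W.add_mem hp hq
  obtain ⟨c, hc⟩ := (Ideal.mem_span_range_iff_exists_fun).1 hF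
  rw [← hc, map_sum]
  exact W.sum_mem fun i _ => key i (c i)

lemma LexGT.toLex {n : ℕ} {u v : Fin n →₀ ℕ} (h : LexGT u v) : toLex v < toLex u := by
  obtain ⟨j, h1, h2⟩ := h
  exact ⟨j, fun i hi => (h1 i hi).symm, h2⟩

/-- monomials of the initial ideal of degree four come from elements of degree four -/
lemma exists_of_mem {n s : ℕ} {d : Fin s → ℕ} (a : Coord n d → k) (i₀ i₁ : Fin s)
    (h0 : d i₀ = 2) (h1 : d i₁ = 2) (hd : ∀ i, i ≠ i₀ → i ≠ i₁ → 5 ≤ d i)
    (v : Fin n →₀ ℕ) (hv : v ∈ monomials n 4)
    (hm : monomial v (1 : k) ∈ initialIdeal (idealOf a)) :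
    ∃ F ∈ Submodule.span k
      ((fun m : Fin n →₀ ℕ => monomial m (1 : k) * form a i₀) '' (monomials n 2 : Set (Fin n →₀ ℕ)) ∪
       (fun m : Fin n →₀ ℕ => monomial m (1 : k) * form a i₁) ''
        (monomials n 2 : Set (Fin n →₀ ℕ))), IsInitial F v := by
  classical
  have hset : {m | ∃ f ∈ idealOf a, ∃ u, IsInitial f u ∧ m = monomial u (1 : k)} =
      (fun u => monomial u (1 : k)) '' {u | ∃ f ∈ idealOf a, IsInitial f u} := by
    ext m
    constructor
    · rintro ⟨f, hf, u, hu, rfl⟩
      exact ⟨u, ⟨f, hf, hu⟩, rfl⟩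
    · rintro ⟨u, ⟨f, hf, hu⟩, rfl⟩
      exact ⟨f, hf, u, hu, rfl⟩
  unfold initialIdeal at hm
  rw [hset, mem_ideal_span_monomial_image] at hm
  obtain ⟨u, ⟨f, hf, hfu⟩, huv⟩ := hm v (by
    rw [mem_support_iff, coeff_monomial, if_pos rfl]
    exact one_ne_zero)
  refine ⟨homogeneousComponent 4 (monomial (v - u) (1 : k) * f),
    component_mem a i₀ i₁ h0 h1 hd _ (Ideal.mul_mem_left _ _ hf), ?_, ?_⟩
  · rw [mem_support_iff, coeff_homogeneousComponent, if_pos (mem_monomials'.1 hv),
      coeff_monomial_mul', if_pos (Finsupp.le_def.2 fun i => by simp), one_mul]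
    have : v - (v - u) = u := by
      ext i
      have := huv i
      simp only [Finsupp.tsub_apply]
      omega
    rw [this]
    exact mem_support_iff.1 hfu.1
  · intro w hw hwv
    rw [mem_support_iff, coeff_homogeneousComponent] at hw
    split_ifs at hw with h4
    · rw [coeff_monomial_mul', one_mul] at hw
      split_ifs at hw with hle
      · have hne : w - (v - u) ≠ u := by
          intro h
          apply hwv
          ext i
          have h1 := congrArg (fun g => g i) h
          have h2 := hle i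
          have h3 := huv i
          simp only [Finsupp.tsub_apply] at h1 h2
          omega
        obtain ⟨j, hj1, hj2⟩ := hfu.2 _ (mem_support_iff.2 hw) hne
        refine ⟨j, fun i hi => ?_, ?_⟩
        · have h1 := hj1 i hi
          have h2 := hle i
          have h3 := huv i
          simp only [Finsupp.tsub_apply] at h1 h2
          omega
        · have h1 := hj2
          have h2 := hle j
          have h3 := huv j
          simp only [Finsupp.tsub_apply] at h1 h2
          omega
      · exact absurd rfl hw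
    · exact absurd rfl hw

/-- a space containing elements with `N` different initial monomials has dimension at least `N` -/
lemma card_le {n : ℕ} (T : Finset (MvPolynomial (Fin n) k)) (B : Finset (Fin n →₀ ℕ))
    (h : ∀ v ∈ B, ∃ F ∈ Submodule.span k (T : Set (MvPolynomial (Fin n) k)), IsInitial F v) :
    B.card ≤ T.card := by
  classical
  choose! F hF hFv using h
  set W := Submodule.span k (T : Set (MvPolynomial (Fin n) k)) with hW
  let b : B → W := fun v => ⟨F v, hF v v.2⟩
  have hli : LinearIndependent k b := by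
    apply LinearIndependent.of_comp W.subtype
    rw [Fintype.linearIndependent_iff]
    intro c hc
    by_contra hcon
    push Not at hcon
    obtain ⟨v0, hv0⟩ := hcon
    obtain ⟨v, hv, hmax⟩ := Finset.exists_max_image (Finset.univ.filter fun v : B => c v ≠ 0)
      (fun v => toLex (v : Fin n →₀ ℕ)) ⟨v0, by simpa using hv0⟩
    have hcv : c v ≠ 0 := (Finset.mem_filter.1 hv).2
    have h1 := congrArg (coeff (v : Fin n →₀ ℕ)) hc
    rw [coeff_sum, coeff_zero, Finset.sum_eq_single v] at h1
    · have h2 : coeff (v : Fin n →₀ ℕ) (F v) ≠ 0 := mem_support_iff.1 (hFv v v.2).1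
      change coeff (v : Fin n →₀ ℕ) (c v • F v) = 0 at h1
      rw [coeff_smul, smul_eq_mul] at h1
      exact (mul_ne_zero hcv h2) h1
    · intro w _ hwv
      change coeff (v : Fin n →₀ ℕ) (c w • F w) = 0
      rw [coeff_smul, smul_eq_mul]
      by_cases hcw : c w = 0
      · rw [hcw, zero_mul]
      · have h3 : toLex (w : Fin n →₀ ℕ) ≤ toLex (v : Fin n →₀ ℕ) :=
          hmax w (by simpa using hcw)
        have h4 : coeff (v : Fin n →₀ ℕ) (F w) = 0 := by
          by_contra h5
          have h6 := (hFv w w.2).2 v (mem_support_iff.2 h5) (fun h => hwv (Subtype.ext h.symm))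
          exact absurd (h6.toLex) (not_lt.2 h3)
        rw [h4, mul_zero]
    · intro h
      exact absurd (Finset.mem_univ _) h
  have h1 := hli.fintype_card_le_finrank
  rw [Fintype.card_coe] at h1
  exact h1.trans (finrank_span_finset_le_card T)

/-- the numerical inequality -/
lemma numbers (n : ℕ) (hn : 4 ≤ n) :
    (monomials n 2).card + (monomials n 2).card < (monomials n 3).card + 1 := by
  unfold monomials
  rw [Finset.card_finsuppAntidiag_nat_eq_choose, Finset.card_finsuppAntidiag_nat_eq_choose,
    Finset.card_univ, Fintype.card_fin]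
  have e1 : n + 2 - 1 = n + 1 := by omega
  have e2 : n + 3 - 1 = n + 2 := by omega
  rw [e1, e2]
  have h := Nat.add_one_mul_choose_eq (n + 1) 2
  have h2 : 6 * (n + 1).choose 2 ≤ (n + 1 + 1) * (n + 1).choose 2 :=
    Nat.mul_le_mul_right _ (by omega)
  have e3 : n + 1 + 1 = n + 2 := by omega
  have e4 : 2 + 1 = 3 := rfl
  rw [e3, e4] at h
  rw [e3] at h2
  omega

/-- if `x_1 ^ 4` is an initial monomial, the initial ideal is not lexsegment -/
lemma not_lexsegment {m s : ℕ} (hm : 2 ≤ m) {d : Fin s → ℕ} (a : Coord (m + 2) d → k)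
    (i₀ i₁ : Fin s) (h0 : d i₀ = 2) (h1 : d i₁ = 2) (hd : ∀ i, i ≠ i₀ → i ≠ i₁ → 5 ≤ d i)
    (R : MvPolynomial (Fin (m + 2)) k) (hR : R ∈ idealOf a)
    (hRi : IsInitial R (Finsupp.single 1 4)) :
    ¬ IsLexsegment (initialIdeal (idealOf a)) := by
  classical
  intro hlex
  have hmem : monomial (Finsupp.single 1 4) (1 : k) ∈ initialIdeal (idealOf a) :=
    Ideal.subset_span ⟨R, hR, _, hRi, rfl⟩
  have hdeg : (Finsupp.single (1 : Fin (m + 2)) 4).degree = 4 := by simp
  let e0 : Fin (m + 2) →₀ ℕ := Finsupp.single 0 1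
  let B : Finset (Fin (m + 2) →₀ ℕ) :=
    insert (Finsupp.single 1 4) ((monomials (m + 2) 3).image (· + e0))
  have hB : ∀ v ∈ B, v ∈ monomials (m + 2) 4 ∧
      monomial v (1 : k) ∈ initialIdeal (idealOf a) := by
    intro v hv
    rcases Finset.mem_insert.1 hv with rfl | hv
    · exact ⟨mem_monomials'.2 hdeg, hmem⟩
    · obtain ⟨u, hu, rfl⟩ := Finset.mem_image.1 hv
      have h4 : (u + e0).degree = 4 := by
        rw [map_add, mem_monomials'.1 hu]
        simp [e0]
      refine ⟨mem_monomials'.2 h4, hlex _ _ (hdeg.trans h4.symm) hmem ⟨0, ?_, ?_⟩⟩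
      · intro i hi
        exact absurd hi (Fin.not_lt_zero _)
      · simp [e0]
  have hcard : B.card = (monomials (m + 2) 3).card + 1 := by
    rw [Finset.card_insert_of_notMem, Finset.card_image_of_injective]
    · exact fun u v h => add_right_cancel h
    · intro h
      obtain ⟨u, -, hu⟩ := Finset.mem_image.1 h
      have := congrArg (fun g => g 0) hu
      simp [e0] at this
  let T : Finset (MvPolynomial (Fin (m + 2)) k) :=
    ((monomials (m + 2) 2).image fun u => monomial u (1 : k) * form a i₀) ∪
    ((monomials (m + 2) 2).image fun u => monomial u (1 : k) * form a i₁)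
  have hT : T.card ≤ (monomials (m + 2) 2).card + (monomials (m + 2) 2).card :=
    (Finset.card_union_le _ _).trans (Nat.add_le_add Finset.card_image_le Finset.card_image_le)
  have h3 : B.card ≤ T.card := by
    apply card_le
    intro v hv
    have h5 := exists_of_mem a i₀ i₁ h0 h1 hd v (hB v hv).1 (hB v hv).2
    simpa [T] using h5
  have h4 := numbers (m + 2) (by omega)
  omega

/-- the square of the first variable -/
noncomputable def m00 (m : ℕ) : monomials (m + 2) 2 :=
  ⟨Finsupp.single 0 2, mem_monomials'.2 (by simp)⟩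

/-- the product of the first two variables -/
noncomputable def m01 (m : ℕ) : monomials (m + 2) 2 :=
  ⟨Finsupp.single 0 1 + Finsupp.single 1 1, mem_monomials'.2 (by simp)⟩

/-- the square of the second variable -/
noncomputable def m11 (m : ℕ) : monomials (m + 2) 2 :=
  ⟨Finsupp.single 1 2, mem_monomials'.2 (by simp)⟩

/-- the quadratic form with coefficients `c` -/
noncomputable def quad {m : ℕ} (c : monomials (m + 2) 2 → k) : MvPolynomial (Fin (m + 2)) k :=
  ∑ u : monomials (m + 2) 2, monomial (u : Fin (m + 2) →₀ ℕ) (c u)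

/-- the part of the quadratic form which is linear in the first variable -/
noncomputable def qA {m : ℕ} (c : monomials (m + 2) 2 → k) : MvPolynomial (Fin (m + 2)) k :=
  ∑ u : monomials (m + 2) 2, if (u : Fin (m + 2) →₀ ℕ) 0 = 1 then
    monomial ((u : Fin (m + 2) →₀ ℕ) - Finsupp.single 0 1) (c u) else 0

/-- the part of the quadratic form without the first variable -/
noncomputable def qB {m : ℕ} (c : monomials (m + 2) 2 → k) : MvPolynomial (Fin (m + 2)) k :=
  ∑ u : monomials (m + 2) 2, if (u : Fin (m + 2) →₀ ℕ) 0 = 0 then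
    monomial (u : Fin (m + 2) →₀ ℕ) (c u) else 0

lemma eq_m00 {m : ℕ} (u : monomials (m + 2) 2) (h : 2 ≤ (u : Fin (m + 2) →₀ ℕ) 0) :
    u = m00 m := by
  have h1 := mem_monomials.1 u.2
  rw [Fin.sum_univ_succ] at h1
  have h2 : ∑ i : Fin (m + 1), (u : Fin (m + 2) →₀ ℕ) i.succ = 0 := by omega
  rw [Finset.sum_eq_zero_iff] at h2
  apply Subtype.ext
  ext i
  refine Fin.cases ?_ (fun i => ?_) i
  · simp only [m00, Finsupp.single_eq_same]
    omega
  · rw [h2 i (Finset.mem_univ _)]
    simp [m00]

lemma quad_eq {m : ℕ} (c : monomials (m + 2) 2 → k) :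
    quad c = C (c (m00 m)) * X 0 ^ 2 + X 0 * qA c + qB c := by
  have h0 : C (c (m00 m)) * X 0 ^ 2 = ∑ u : monomials (m + 2) 2,
      (if 2 ≤ (u : Fin (m + 2) →₀ ℕ) 0 then monomial (u : Fin (m + 2) →₀ ℕ) (c u) else 0) := by
    rw [Finset.sum_eq_single (m00 m)]
    · rw [if_pos (by simp [m00]), C_mul_X_pow_eq_monomial]
      rfl
    · intro u _ hu
      rw [if_neg]
      exact fun h => hu (eq_m00 u h)
    · intro h
      exact absurd (Finset.mem_univ _) h
  rw [h0]
  unfold quad qA qB
  rw [Finset.mul_sum, ← Finset.sum_add_distrib, ← Finset.sum_add_distrib]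
  refine Finset.sum_congr rfl fun u _ => ?_
  rcases Nat.lt_trichotomy ((u : Fin (m + 2) →₀ ℕ) 0) 1 with h | h | h
  · rw [if_neg (by omega), if_neg (by omega), if_pos (by omega)]
    simp
  · rw [if_neg (by omega), if_pos (by omega), if_neg (by omega), zero_add, add_zero, X,
      monomial_mul, one_mul]
    have e : Finsupp.single (0 : Fin (m + 2)) 1 +
        ((u : Fin (m + 2) →₀ ℕ) - Finsupp.single 0 1) = (u : Fin (m + 2) →₀ ℕ) := by
      ext i
      by_cases hi : i = 0
      · subst hi
        rw [Finsupp.add_apply, Finsupp.tsub_apply, Finsupp.single_eq_same]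
        omega
      · rw [Finsupp.add_apply, Finsupp.tsub_apply, Finsupp.single_eq_of_ne hi]
        omega
    rw [e]
  · rw [if_pos (by omega), if_neg (by omega), if_neg (by omega)]
    simp

/-- the point `(0, 1, 0, …, 0)` -/
def pt (k : Type*) [Field k] (m : ℕ) : Fin (m + 2) → k := Pi.single 1 1

lemma eval_monomial_pt {m : ℕ} (u : Fin (m + 2) →₀ ℕ) (r : k) :
    eval (pt k m) (monomial u r) = if ∀ i, i ≠ 1 → u i = 0 then r else 0 := by
  rw [eval_monomial, Finsupp.prod_fintype _ _ (fun i => pow_zero _)]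
  split_ifs with h
  · rw [Finset.prod_eq_one, mul_one]
    intro i _
    by_cases hi : i = 1
    · subst hi
      simp [pt]
    · rw [h i hi, pow_zero]
  · push Not at h
    obtain ⟨i, hi, hu⟩ := h
    rw [Finset.prod_eq_zero (Finset.mem_univ i), mul_zero]
    rw [pt, Pi.single_eq_of_ne hi, zero_pow hu]

lemma eval_qA {m : ℕ} (c : monomials (m + 2) 2 → k) : eval (pt k m) (qA c) = c (m01 m) := by
  unfold qA
  rw [map_sum, Finset.sum_eq_single (m01 m)]
  · rw [if_pos (by simp [m01]), eval_monomial_pt, if_pos]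
    intro i hi
    simp [m01, Finsupp.single_eq_of_ne hi]
  · intro u _ hu
    split_ifs with h
    · rw [eval_monomial_pt, if_neg]
      intro hcon
      apply hu
      have h1 := mem_monomials.1 u.2
      rw [Fin.sum_univ_succ, Fin.sum_univ_succ, h] at h1
      have h2 : ∀ i : Fin m, (u : Fin (m + 2) →₀ ℕ) i.succ.succ = 0 := by
        intro i
        have h3 := hcon i.succ.succ (by
          intro h
          exact absurd (congrArg Fin.val h) (by simp))
        simpa using h3
      rw [Finset.sum_eq_zero (fun i _ => h2 i)] at h1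
      apply Subtype.ext
      ext i
      refine Fin.cases ?_ (fun i => Fin.cases ?_ (fun i => ?_) i) i
      · simp [m01, h]
      · simp only [m01, Fin.succ_zero_eq_one, Finsupp.add_apply, Finsupp.single_eq_same]
        rw [Fin.succ_zero_eq_one] at h1
        simp
        omega
      · rw [h2 i]
        have e1 : (i.succ.succ : Fin (m + 2)) ≠ 0 := Fin.succ_ne_zero _
        have e2 : (i.succ.succ : Fin (m + 2)) ≠ 1 := by
          intro h
          exact absurd (congrArg Fin.val h) (by simp)
        simp [m01, Finsupp.single_eq_of_ne e1, Finsupp.single_eq_of_ne e2]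
    · exact map_zero _
  · intro h
    exact absurd (Finset.mem_univ _) h

lemma eval_qB {m : ℕ} (c : monomials (m + 2) 2 → k) : eval (pt k m) (qB c) = c (m11 m) := by
  unfold qB
  rw [map_sum, Finset.sum_eq_single (m11 m)]
  · rw [if_pos (by simp [m11]), eval_monomial_pt, if_pos]
    intro i hi
    simp [m11, Finsupp.single_eq_of_ne hi]
  · intro u _ hu
    split_ifs with h
    · rw [eval_monomial_pt, if_neg]
      intro hcon
      apply hu
      have h1 := mem_monomials.1 u.2
      rw [Fin.sum_univ_succ, Fin.sum_univ_succ, h] at h1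
      have h2 : ∀ i : Fin m, (u : Fin (m + 2) →₀ ℕ) i.succ.succ = 0 := by
        intro i
        exact hcon i.succ.succ (by
          intro h
          exact absurd (congrArg Fin.val h) (by simp))
      rw [Finset.sum_eq_zero (fun i _ => h2 i)] at h1
      apply Subtype.ext
      ext i
      refine Fin.cases ?_ (fun i => Fin.cases ?_ (fun i => ?_) i) i
      · simp [m11, h]
      · simp only [m11, Fin.succ_zero_eq_one, Finsupp.single_eq_same]
        rw [Fin.succ_zero_eq_one] at h1
        omega
      · rw [h2 i]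
        have e2 : (i.succ.succ : Fin (m + 2)) ≠ 1 := by
          intro h
          exact absurd (congrArg Fin.val h) (by simp)
        simp [m11, Finsupp.single_eq_of_ne e2]
    · exact map_zero _
  · intro h
    exact absurd (Finset.mem_univ _) h

lemma qA_mem {m : ℕ} (c : monomials (m + 2) 2 → k) :
    qA c ∈ supported k ({0}ᶜ : Set (Fin (m + 2))) := by
  unfold qA
  refine Subalgebra.sum_mem _ fun u _ => ?_
  split_ifs with h
  · rw [mem_supported]
    intro i hi
    have h1 := (mem_vars_iff_mem_support _).1 (Finset.mem_coe.1 hi)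
    obtain ⟨w, hw, hwi⟩ := h1
    rw [Set.mem_compl_iff, Set.mem_singleton_iff]
    rintro rfl
    have h2 := Finset.mem_singleton.1 (support_monomial_subset hw)
    subst h2
    rw [Finsupp.mem_support_iff, Finsupp.tsub_apply, h, Finsupp.single_eq_same] at hwi
    exact hwi rfl
  · exact Subalgebra.zero_mem _

lemma qB_mem {m : ℕ} (c : monomials (m + 2) 2 → k) :
    qB c ∈ supported k ({0}ᶜ : Set (Fin (m + 2))) := by
  unfold qB
  refine Subalgebra.sum_mem _ fun u _ => ?_
  split_ifs with h
  · rw [mem_supported]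
    intro i hi
    have h1 := (mem_vars_iff_mem_support _).1 (Finset.mem_coe.1 hi)
    obtain ⟨w, hw, hwi⟩ := h1
    rw [Set.mem_compl_iff, Set.mem_singleton_iff]
    rintro rfl
    have h2 := Finset.mem_singleton.1 (support_monomial_subset hw)
    subst h2
    rw [Finsupp.mem_support_iff, h] at hwi
    exact hwi rfl
  · exact Subalgebra.zero_mem _

lemma qA_hom {m : ℕ} (c : monomials (m + 2) 2 → k) : (qA c).IsHomogeneous 1 := by
  unfold qA
  refine IsHomogeneous.sum _ _ _ fun u _ => ?_
  split_ifs with h
  · apply isHomogeneous_monomial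
    have h1 := mem_monomials.1 u.2
    rw [degree_eq, Fin.sum_univ_succ]
    rw [Fin.sum_univ_succ, h] at h1
    rw [Finsupp.tsub_apply, h, Finsupp.single_eq_same]
    simp only [Finsupp.tsub_apply]
    have : ∀ i : Fin (m + 1), (Finsupp.single (0 : Fin (m + 2)) 1) i.succ = 0 := fun i =>
      Finsupp.single_eq_of_ne (Fin.succ_ne_zero i)
    simp only [this]
    simp only [tsub_zero]
    omega
  · exact isHomogeneous_zero _ _ _

lemma qB_hom {m : ℕ} (c : monomials (m + 2) 2 → k) : (qB c).IsHomogeneous 2 := by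
  unfold qB
  refine IsHomogeneous.sum _ _ _ fun u _ => ?_
  split_ifs with h
  · exact isHomogeneous_monomial _ (mem_monomials'.1 u.2)
  · exact isHomogeneous_zero _ _ _

/-- the resultant of two quadratic forms with respect to the first variable -/
noncomputable def res {m : ℕ} (c e : monomials (m + 2) 2 → k) : MvPolynomial (Fin (m + 2)) k :=
  (C (c (m00 m)) * qB e - C (e (m00 m)) * qB c) ^ 2 -
    (C (c (m00 m)) * qA e - C (e (m00 m)) * qA c) * (qA c * qB e - qB c * qA e)

lemma res_eq {m : ℕ} (c e : monomials (m + 2) 2 → k) :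
    res c e = (C (c (m00 m)) * quad e - C (e (m00 m)) * quad c) *
        ((C (c (m00 m)) * qB e - C (e (m00 m)) * qB c) -
          X 0 * (C (c (m00 m)) * qA e - C (e (m00 m)) * qA c)) +
      (C (c (m00 m)) * qA e - C (e (m00 m)) * qA c) * (qA e * quad c - qA c * quad e) := by
  rw [quad_eq, quad_eq, res]
  ring

lemma res_hom {m : ℕ} (c e : monomials (m + 2) 2 → k) : (res c e).IsHomogeneous 4 := by
  unfold res
  refine IsHomogeneous.sub ?_ ?_
  · exact (((qB_hom e).C_mul _).sub ((qB_hom c).C_mul _)).pow 2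
  · refine IsHomogeneous.mul (m := 1) (n := 3) ?_ ?_
    · exact ((qA_hom e).C_mul _).sub ((qA_hom c).C_mul _)
    · exact ((qA_hom c).mul (qB_hom e)).sub ((qB_hom c).mul (qA_hom e))

lemma res_mem {m : ℕ} (c e : monomials (m + 2) 2 → k) :
    res c e ∈ supported k ({0}ᶜ : Set (Fin (m + 2))) := by
  have hC : ∀ r : k, (C r : MvPolynomial (Fin (m + 2)) k) ∈
      supported k ({0}ᶜ : Set (Fin (m + 2))) := fun r => Subalgebra.algebraMap_mem _ r
  unfold res
  exact Subalgebra.sub_mem _ (Subalgebra.pow_mem _ (Subalgebra.sub_mem _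
    (Subalgebra.mul_mem _ (hC _) (qB_mem _)) (Subalgebra.mul_mem _ (hC _) (qB_mem _))) _)
    (Subalgebra.mul_mem _ (Subalgebra.sub_mem _
    (Subalgebra.mul_mem _ (hC _) (qA_mem _)) (Subalgebra.mul_mem _ (hC _) (qA_mem _)))
    (Subalgebra.sub_mem _ (Subalgebra.mul_mem _ (qA_mem _) (qB_mem _))
      (Subalgebra.mul_mem _ (qB_mem _) (qA_mem _))))

lemma eval_res {m : ℕ} (c e : monomials (m + 2) 2 → k) : eval (pt k m) (res c e) =
    (c (m00 m) * e (m11 m) - e (m00 m) * c (m11 m)) ^ 2 -
      (c (m00 m) * e (m01 m) - e (m00 m) * c (m01 m)) *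
        (c (m01 m) * e (m11 m) - c (m11 m) * e (m01 m)) := by
  simp only [res, map_sub, map_mul, map_pow, eval_C, eval_qA, eval_qB]

/-- a form of degree four in the variables other than the first, not vanishing at the point -/
lemma initial_of_eval {m : ℕ} (R : MvPolynomial (Fin (m + 2)) k) (h4 : R.IsHomogeneous 4)
    (hs : R ∈ supported k ({0}ᶜ : Set (Fin (m + 2)))) (he : eval (pt k m) R ≠ 0) :
    IsInitial R (Finsupp.single 1 4) := by
  have hw0 : ∀ w ∈ R.support, w 0 = 0 := by
    intro w hw
    by_contra h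
    have h1 : (0 : Fin (m + 2)) ∈ R.vars := (mem_vars_iff_mem_support _).2 ⟨w, hw, Finsupp.mem_support_iff.2 h⟩
    exact (mem_supported.1 hs) h1 rfl
  have hdeg : ∀ w ∈ R.support, w.degree = 4 := by
    intro w hw
    rw [Finsupp.degree_eq_weight_one (R := ℕ)]
    exact h4 (mem_support_iff.1 hw)
  refine ⟨?_, ?_⟩
  · by_contra hcon
    apply he
    rw [R.as_sum, map_sum]
    refine Finset.sum_eq_zero fun w hw => ?_
    rw [eval_monomial_pt, if_neg]
    intro h
    apply hcon
    have h1 : w = Finsupp.single 1 4 := by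
      have h2 := hdeg w hw
      rw [degree_eq, Finset.sum_eq_single 1 (fun i _ hi => h i hi)
        (fun h => absurd (Finset.mem_univ _) h)] at h2
      ext i
      by_cases hi : i = 1
      · subst hi
        rw [h2, Finsupp.single_eq_same]
      · rw [h i hi, Finsupp.single_eq_of_ne hi]
    rw [← h1]
    exact hw
  · intro w hw hne
    have h2 := hdeg w hw
    rw [degree_eq, Fin.sum_univ_succ, Fin.sum_univ_succ, hw0 w hw, Fin.succ_zero_eq_one] at h2
    refine ⟨1, fun i hi => ?_, ?_⟩
    · have : i = 0 := by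
        apply Fin.ext
        have := Fin.lt_def.1 hi
        simp at this
        simpa using this
      subst this
      rw [hw0 w hw, Finsupp.single_eq_of_ne (by simp)]
    · rw [Finsupp.single_eq_same]
      by_contra hlt
      apply hne
      have h3 : w 1 = 4 := by omega
      have h5 : ∑ i : Fin m, w i.succ.succ = 0 := by omega
      rw [Finset.sum_eq_zero_iff] at h5
      ext i
      refine Fin.cases ?_ (fun i => Fin.cases ?_ (fun i => ?_) i) i
      · rw [hw0 w hw, Finsupp.single_eq_of_ne (by simp)]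
      · rw [Fin.succ_zero_eq_one, h3, Finsupp.single_eq_same]
      · rw [h5 i (Finset.mem_univ _), Finsupp.single_eq_of_ne]
        intro h
        exact absurd (congrArg Fin.val h) (by simp)

lemma form_eq_quad {m s : ℕ} {d : Fin s → ℕ} (a : Coord (m + 2) d → k) (i : Fin s)
    (h : d i = 2) :
    form a i = quad fun u => a ⟨i, ⟨u.1, by rw [h]; exact u.2⟩⟩ := by
  unfold form quad
  refine Fintype.sum_equiv (Equiv.subtypeEquivRight fun x => by rw [h]) _ _ fun u => ?_
  rfl

/-- a nonempty Zariski open set on which the initial ideal is not lexsegment -/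
lemma exists_poly {m s : ℕ} (hm : 2 ≤ m) (d : Fin s → ℕ)
    (i₀ i₁ : Fin s) (h01 : i₀ ≠ i₁) (h0 : d i₀ = 2) (h1 : d i₁ = 2)
    (hd : ∀ i, i ≠ i₀ → i ≠ i₁ → 5 ≤ d i) :
    ∃ D : MvPolynomial (Coord (m + 2) d) k, (∃ a, eval a D ≠ 0) ∧
      ∀ a, eval a D ≠ 0 → ¬ IsLexsegment (initialIdeal (idealOf a)) := by
  classical
  have hmem : ∀ i, d i = 2 → ∀ u : monomials (m + 2) 2, u.1 ∈ monomials (m + 2) (d i) := by
    intro i h u
    rw [h]
    exact u.2
  let x : monomials (m + 2) 2 → MvPolynomial (Coord (m + 2) d) k := fun u =>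
    X ⟨i₀, ⟨u.1, hmem i₀ h0 u⟩⟩
  let y : monomials (m + 2) 2 → MvPolynomial (Coord (m + 2) d) k := fun u =>
    X ⟨i₁, ⟨u.1, hmem i₁ h1 u⟩⟩
  refine ⟨(x (m00 m) * y (m11 m) - y (m00 m) * x (m11 m)) ^ 2 -
      (x (m00 m) * y (m01 m) - y (m00 m) * x (m01 m)) *
        (x (m01 m) * y (m11 m) - x (m11 m) * y (m01 m)), ?_, ?_⟩
  · refine ⟨fun p => if (p.1 = i₀ ∧ (p.2 : Fin (m + 2) →₀ ℕ) = (m00 m : Fin (m + 2) →₀ ℕ)) ∨
      (p.1 = i₁ ∧ (p.2 : Fin (m + 2) →₀ ℕ) = (m11 m : Fin (m + 2) →₀ ℕ)) then 1 else 0, ?_⟩
    have e1 : (m00 m : Fin (m + 2) →₀ ℕ) ≠ (m11 m : Fin (m + 2) →₀ ℕ) := by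
      intro h
      have := congrArg (fun g => g 0) h
      simp [m00, m11] at this
    have e2 : (m01 m : Fin (m + 2) →₀ ℕ) ≠ (m11 m : Fin (m + 2) →₀ ℕ) := by
      intro h
      have := congrArg (fun g => g 0) h
      simp [m01, m11] at this
    have e3 : (m01 m : Fin (m + 2) →₀ ℕ) ≠ (m00 m : Fin (m + 2) →₀ ℕ) := by
      intro h
      have := congrArg (fun g => g 1) h
      simp [m01, m00] at this
    simp [x, y, h01, h01.symm, e1, e1.symm, e2, e3]
  · intro a ha
    set c : monomials (m + 2) 2 → k := fun u => a ⟨i₀, ⟨u.1, hmem i₀ h0 u⟩⟩ with hc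
    set e : monomials (m + 2) 2 → k := fun u => a ⟨i₁, ⟨u.1, hmem i₁ h1 u⟩⟩ with he
    have hf0 : form a i₀ = quad c := form_eq_quad a i₀ h0
    have hf1 : form a i₁ = quad e := form_eq_quad a i₁ h1
    have hR : res c e ∈ idealOf a := by
      rw [res_eq, ← hf0, ← hf1]
      have g0 : form a i₀ ∈ idealOf a := Ideal.subset_span ⟨i₀, rfl⟩
      have g1 : form a i₁ ∈ idealOf a := Ideal.subset_span ⟨i₁, rfl⟩
      exact Ideal.add_mem _ (Ideal.mul_mem_right _ _ (Ideal.sub_mem _ (Ideal.mul_mem_left _ _ g1)
        (Ideal.mul_mem_left _ _ g0))) (Ideal.mul_mem_left _ _ (Ideal.sub_mem _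
        (Ideal.mul_mem_left _ _ g0) (Ideal.mul_mem_left _ _ g1)))
    refine not_lexsegment hm a i₀ i₁ h0 h1 hd (res c e) hR
      (initial_of_eval _ (res_hom c e) (res_mem c e) ?_)
    rw [eval_res]
    simpa [x, y, hc, he] using ha

end Proof

/-- **Generic lex initial ideals need not be lexsegment.** Let `k` be an infinite field (of any
characteristic), `n ≥ 4`, and let `d 0, …, d (s - 1)` be positive integers, two of which are `2`
and all others at least `5` (for every `s ≥ 2`, in particular for all `s` with `n - s ≤ 1`).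

1. There is a nonempty Zariski open set of points `a` of the affine space of `s`-tuples of forms of
   these degrees such that the lex initial ideal of `I_a` is not lexsegment.
2. The generic lex initial ideal is not lexsegment. -/
theorem result (k : Type*) [Field k] [Infinite k] (n : ℕ) (hn : 4 ≤ n) (s : ℕ) (d : Fin s → ℕ)
    (i₀ i₁ : Fin s) (h01 : i₀ ≠ i₁) (h0 : d i₀ = 2) (h1 : d i₁ = 2)
    (hd : ∀ i, i ≠ i₀ → i ≠ i₁ → 5 ≤ d i) :
    (∃ U : Set (Coord n d → k), IsZariskiOpen U ∧ U.Nonempty ∧
      ∀ a ∈ U, ¬ IsLexsegment (initialIdeal (idealOf a))) ∧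
    (∀ G : Ideal (MvPolynomial (Fin n) k), IsGenericInitialIdeal d G → ¬ IsLexsegment G) := by
  obtain ⟨m, rfl⟩ : ∃ m, n = m + 2 := ⟨n - 2, by omega⟩
  obtain ⟨D, ⟨a₀, ha₀⟩, hD⟩ := exists_poly (k := k) (by omega : 2 ≤ m) d i₀ i₁ h01 h0 h1 hd
  refine ⟨⟨{a | eval a D ≠ 0}, ⟨{D}, by simp⟩, ⟨a₀, ha₀⟩, hD⟩, ?_⟩
  rintro G ⟨V, ⟨P, rfl⟩, ⟨a₁, p, hp, ha₁⟩, hG⟩
  have hne : D * p ≠ 0 := by
    refine mul_ne_zero ?_ ?_
    · rintro rfl
      exact ha₀ (map_zero _)
    · rintro rfl
      exact ha₁ (map_zero _)
  obtain ⟨b, hb⟩ : ∃ b, eval b (D * p) ≠ 0 := by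
    by_contra hcon
    push Not at hcon
    exact hne (MvPolynomial.funext fun b => by rw [hcon b, map_zero])
  rw [map_mul] at hb
  rw [← hG b ⟨p, hp, right_ne_zero_of_mul hb⟩]
  exact hD b (left_ne_zero_of_mul hb)

end Pool.Agent.Results.MP_48c274_ag.NotLexsegment
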